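import Pool.Agent.Lib_helper82.SV.Final

/-!
# MP_a94db7_an: spectra, traces and homotopy of the closure of the range

`θ : B → A` is a homomorphism between Banach algebras and `C` is the closure of its range (given as a
Banach algebra with an embedding `j` onto this closure). The question is whether `θ` is continuous if
`C` is semisimple.

The theorem. `θ` is continuous if each closed two-sided ideal `I ≠ 0` of `C` is seen (`Seen`): there
is a continuous homomorphism `q` from `C` to a Banach algebra `E` such that one of the following
holds.

* Spectra: some matrix with entries in `q (I)` has a spectrum which is not a connected set containing
  the origin. For instance, it is a non-zero idempotent, or a non-zero compact self-adjoint operator.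
* Traces: `E` is a C*-algebra and some bounded trace of `E` does not vanish on `q (I)`.
* Homotopy: for some compact space `X` there is a continuous family of invertible matrices
  `1 + q (s x)`, `x ∈ X`, `s x` a matrix over `I`, which is not homotopic to the constant family `1`
  through families of invertible matrices over `E`. (Here `X` may be a circle or a point: by Bott
  periodicity this is the case if the homomorphism from `K₀ (I)` to `K₀ (E)` or the one from `K₁ (I)`
  to `K₁ (E)` is not zero.)

In other words: if `θ` is discontinuous, then its separating space is a closed ideal `S ≠ 0` of `C`
which is stably projectionless and without bounded traces in all C*-algebras to which `C` is mapped,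
and its `K`-theory is mapped to zero in all Banach algebras to which `C` is mapped (for instance in
the quotients `C / J`).

So the question has a positive answer, for instance, if `C` is one of the following algebras.

* C*-algebras of type I, and subdirect products of them (each ideal `I ≠ 0` contains a positive
  element which is mapped to a non-zero compact operator by an irreducible representation; see
  `seen_of_compact` in `Lib_helper82.SV.Cases`).
* C*-algebras such that the bounded traces separate the points `x * x` (the ideal contains
  `star x * x`; see `seen_of_trace` there), as the reduced and the full C*-algebras of many discrete
  groups: the reduced one of every discrete group, which is without idempotents except 0 and 1 for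
  free groups, and the algebra `ℓ¹ (G)` of every discrete group `G`, with `q` the regular
  representation.
* C*-algebras such that all ideals `I ≠ 0` contain a non-zero projection (von Neumann algebras, real
  rank zero).
* Simple C*-algebras, except those which are stably projectionless, have no non-zero bounded trace,
  and have `K₀ = K₁ = 0`. (The simplest simple C*-algebra which is not covered is the stabilization of
  the Jacelon - Razak algebra.)

Idea of the proof. Let `S` be the separating space, the closed ideal of the limits of `θ (u k)` for
sequences `u k → 0` in `B`. If `w k` is the image of the matrix `u k` over `B` under a homomorphism,
then the spectrum of `w k` is contained in the disc with the radius `‖u k‖`. So a matrix `s` over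
`q (S)` is a limit of matrices with small spectra. By the maximum principle for resolvents the spectrum
of `s` is connected and contains the origin (Newburgh). An element `y` of a C*-algebra with a spectrum
in the disc with the radius `r` is similar to an element `h * y * h⁻¹` of a norm at most `r + ε`:
`h ^ 2` is the sum of `(r + ε) ^ (-2 m) * (star y) ^ m * y ^ m` (Rota). So `|τ y| ≤ ‖τ‖ * r` for bounded
traces `τ`, and `τ = 0` on `q (S)`. Finally let `s : X → M n (S)` be continuous and `1 + q (s x)`
invertible. By a partition of unity `s` is approximated by combinations `∑ f j * y j` of constant
matrices `y j` over `S` with continuous coefficients, and these by `θ (u x)` with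
`u x = ∑ f j (x) * u j`, `‖u x‖ < 1`. All the matrices `1 + t * q (θ (u x))`, `0 ≤ t ≤ 1`, are
invertible, since `t * u x` is quasi-invertible in the Banach algebra of matrices over `B`. This is a
homotopy from the constant family `1` to a family near `1 + q (s x)`. -/

set_option autoImplicit false

open Topology
open Pool.Agent.SpectralVisible

namespace Pool.Agent.Results.MP_a94db7_an.TracesAndHomotopy

/-- `θ : B → A` is a homomorphism between Banach algebras, `C` is the closure of its range. If each
closed two-sided ideal `I ≠ 0` of `C` is seen by spectra, by traces of C*-algebras or by homotopy of
families of invertible matrices, then `θ` is continuous. -/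
theorem result (B A C : Type)
    [NonUnitalNormedRing B] [NormedSpace ℂ B] [IsScalarTower ℂ B B] [SMulCommClass ℂ B B]
    [CompleteSpace B]
    [NonUnitalNormedRing A] [NormedSpace ℂ A] [IsScalarTower ℂ A A] [SMulCommClass ℂ A A]
    [NonUnitalNormedRing C] [NormedSpace ℂ C] [IsScalarTower ℂ C C] [SMulCommClass ℂ C C]
    [CompleteSpace C]
    (θ : B →ₙₐ[ℂ] A) (j : C →ₙₐ[ℂ] A) (hj : IsEmbedding j)
    (hC : Set.range j = closure (Set.range θ))
    (hI : ∀ I : Submodule ℂ C, IsClosedIdeal I → I ≠ ⊥ → Seen I) : Continuous θ :=
  reduce θ j hj hC fun θ' hθ' => continuous_of_seen θ' hθ' hI

end Pool.Agent.Results.MP_a94db7_an.TracesAndHomotopy
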